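import Pool.Agent.K1H12.RP.Lift

/-!
# The decomposition with respect to a normal subgroup
-/

set_option autoImplicit false
set_option linter.unusedSectionVars false

open Filter Topology Module TensorProduct

namespace Pool.Agent.K1H12.RP

open Pool.Agent.K1H13.GO

noncomputable section

variable {E : Type} [NormedField E] [IsAlgClosed E] {Y : Type} [AddCommGroup Y] [Module E Y]
  [FiniteDimensional E Y] {P : Type} [Group P] {r : Representation E P Y}
  [TopologicalSpace P] [IsTopologicalGroup P]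

/-- continuity at one is enough -/
theorem cont_of_one {G : Type} [Group G] [TopologicalSpace G] [IsTopologicalGroup G]
    {A : Type} [AddCommGroup A] [Module E A] [FiniteDimensional E A] {ρ : Representation E G A}
    (h : TId (𝓝 (1 : G)) ρ) : IsContinuousRep ρ := by
  intro L a
  rw [continuous_iff_continuousAt]
  intro x0
  have h1 : Tendsto (fun x : G => x * x0⁻¹) (𝓝 x0) (𝓝 1) := by
    have h2 : Tendsto (fun x : G => x * x0⁻¹) (𝓝 x0) (𝓝 (x0 * x0⁻¹)) :=
      (continuous_id.mul continuous_const).tendsto x0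
    rwa [mul_inv_cancel] at h2
  have h2 := (h L (ρ x0 a)).comp h1
  refine h2.congr fun x => ?_
  change L (ρ (x * x0⁻¹) (ρ x0 a)) = L (ρ x a)
  rw [← Module.End.mul_apply, ← map_mul, inv_mul_cancel_right]

/-- the data -/
structure Dat (r : Representation E P Y) (S : Subgroup P) (A : Submodule E Y) (H : Subgroup P)
    (R : P → (A →ₗ[E] A)) : Prop where
  normal : S.Normal
  ir : Ir r S A
  mul : ∀ x ∈ H, ∀ y ∈ H, R (x * y) = R x * R y
  det : ∀ x ∈ H, LinearMap.det (R x) = 1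
  tw : ∀ x, Tw r S A x (R x)

namespace Dat

variable {S : Subgroup P} {A : Submodule E Y} {H : Subgroup P} {R : P → (A →ₗ[E] A)}
  (D : Dat r S A H R)

include D

theorem one : R 1 = 1 := by
  have h1 := D.mul 1 H.one_mem 1 H.one_mem
  rw [mul_one] at h1
  have h2 : Function.Injective (R 1) :=
    inj_of_det (by rw [D.det 1 H.one_mem]; exact one_ne_zero)
  ext a
  have h3 : R 1 (R 1 a) = R 1 a := by
    conv_rhs => rw [h1]
    rfl
  rw [h2 h3]
  rfl

theorem inv_mul {x : P} (hx : x ∈ H) (a : A) : R x⁻¹ (R x a) = a := by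
  rw [← Module.End.mul_apply, ← D.mul _ (H.inv_mem hx) _ hx, inv_mul_cancel, D.one]
  rfl

theorem mul_inv {x : P} (hx : x ∈ H) (a : A) : R x (R x⁻¹ a) = a := by
  rw [← Module.End.mul_apply, ← D.mul _ hx _ (H.inv_mem hx), mul_inv_cancel, D.one]
  rfl

/-- the first factor -/
def ρ₁ : Representation E H A where
  toFun x := R x
  map_one' := D.one
  map_mul' x y := D.mul x x.2 y y.2

theorem ρ₁_apply (x : H) : D.ρ₁ x = R x := rfl

omit D in
/-- the action on maps -/
def op (r : Representation E P Y) (R : P → (A →ₗ[E] A)) (x : P) :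
    (A →ₗ[E] Y) →ₗ[E] (A →ₗ[E] Y) where
  toFun f := (r x) ∘ₗ f ∘ₗ (R x⁻¹)
  map_add' f g := by ext a; simp
  map_smul' c f := by ext a; simp

omit D in
theorem op_apply (x : P) (f : A →ₗ[E] Y) (a : A) : op r R x f a = r x (f (R x⁻¹ a)) := rfl

theorem op_mem (x : P) {f : A →ₗ[E] Y} (hf : f ∈ HomG r S A ⊤) : op r R x f ∈ HomG r S A ⊤ := by
  have := D.normal
  refine ⟨fun n hn a a' h => ?_, fun a => trivial⟩
  rw [op_apply, op_apply, hf.1 _ (D.normal.conj_mem n hn x⁻¹) (R x⁻¹ a) (R x⁻¹ a')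
    (D.tw x⁻¹ n hn a a' h), ← r_mul, ← r_mul]
  congr 2
  group

/-- the second factor -/
def γ : Representation E H (HomG r S A ⊤) where
  toFun x := (op r R x).restrict fun _ hf => D.op_mem x hf
  map_one' := by
    refine LinearMap.ext fun f => Subtype.ext (LinearMap.ext fun a => ?_)
    change r (1 : P) (f.1 (R (1 : P)⁻¹ a)) = f.1 a
    rw [inv_one, D.one, map_one]
    rfl
  map_mul' x y := by
    refine LinearMap.ext fun f => Subtype.ext (LinearMap.ext fun a => ?_)
    change r ((x : P) * y) (f.1 (R ((x : P) * y)⁻¹ a)) = r x (r y (f.1 (R (y : P)⁻¹ (R (x : P)⁻¹ a))))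
    rw [mul_inv_rev, D.mul _ (H.inv_mem y.2) _ (H.inv_mem x.2), r_mul]
    rfl

theorem γ_apply (x : H) (f : HomG r S A ⊤) (a : A) :
    (D.γ x f).1 a = r x (f.1 (R (x : P)⁻¹ a)) := rfl

theorem γ_R (x : H) (f : HomG r S A ⊤) (a : A) : (D.γ x f).1 (R x a) = r x (f.1 a) := by
  rw [D.γ_apply, D.inv_mul x.2]

/-- the subspaces given by stable subspaces of maps -/
theorem st_sup {K : Set P} (M' : Submodule E (HomG r S A ⊤))
    (hK : ∀ x ∈ K, x ∈ H) (hM' : ∀ x (hx : x ∈ K), ∀ f ∈ M', D.γ ⟨x, hK x hx⟩ f ∈ M') :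
    St r K (⨆ f : M', LinearMap.range f.1.1) := by
  intro x hx
  have h2 : (⨆ f : M', LinearMap.range f.1.1) ≤
      (⨆ f : M', LinearMap.range f.1.1).comap (r x) := by
    refine iSup_le fun f => ?_
    rintro _ ⟨a, rfl⟩
    refine (le_iSup (fun f : M' => LinearMap.range f.1.1) ⟨_, hM' x hx f.1 f.2⟩) ?_
    exact ⟨R x a, D.γ_R ⟨x, hK x hx⟩ f.1 a⟩
  exact fun u hu => h2 hu

theorem sup_ne_bot {M' : Submodule E (HomG r S A ⊤)} (h : M' ≠ ⊥) :
    (⨆ f : M', LinearMap.range f.1.1) ≠ ⊥ := by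
  intro h0
  apply h
  rw [eq_bot_iff]
  intro f hf
  have h1 : LinearMap.range f.1 ≤ ⊥ := by
    rw [← h0]
    exact le_iSup (fun f : M' => LinearMap.range f.1.1) ⟨f, hf⟩
  rw [Submodule.mem_bot]
  exact Subtype.ext (LinearMap.range_eq_bot.1 (le_bot_iff.1 h1))

/-- surjectivity -/
theorem sup_eq_top (hS : SIr r) {K : Subgroup P} (hKo : IsOpen (K : Set P))
    (hK : ∀ x ∈ K, x ∈ H) {M' : Submodule E (HomG r S A ⊤)} (h : M' ≠ ⊥)
    (hM' : ∀ x (hx : x ∈ K), ∀ f ∈ M', D.γ ⟨x, hK x hx⟩ f ∈ M') :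
    (⨆ f : M', LinearMap.range f.1.1) = ⊤ := by
  rcases (hS K hKo).2.2 _ le_top (D.st_sup M' (K := (K : Set P)) hK hM') with h1 | h1
  · exact absurd h1 (D.sup_ne_bot h)
  · exact h1

theorem nontrivial : Nontrivial (HomG r S A ⊤) := hom_nontrivial D.ir le_top

theorem ev_surj (hS : SIr r) (hH : IsOpen (H : Set P)) :
    Function.Surjective (TensorProduct.lift (ev r S A ⊤)) := by
  have := D.nontrivial
  have h1 := D.sup_eq_top hS hH (fun _ h => h) (M' := ⊤) top_ne_bot (fun _ _ _ _ => trivial)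
  have h2 : (⨆ f : (⊤ : Submodule E (HomG r S A ⊤)), LinearMap.range f.1.1) ≤
      LinearMap.range (TensorProduct.lift (ev r S A ⊤)) := by
    refine iSup_le fun f => ?_
    rintro _ ⟨a, rfl⟩
    exact ⟨a ⊗ₜ f.1, rfl⟩
  rw [h1] at h2
  exact LinearMap.range_eq_top.1 (top_le_iff.1 h2)

/-- the isomorphism -/
def T (hS : SIr r) (hH : IsOpen (H : Set P)) : (A ⊗[E] HomG r S A ⊤) ≃ₗ[E] Y :=
  LinearEquiv.ofBijective (TensorProduct.lift (ev r S A ⊤)) ⟨ev_injective D.ir, D.ev_surj hS hH⟩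

theorem T_apply (hS : SIr r) (hH : IsOpen (H : Set P)) (a : A) (f : HomG r S A ⊤) :
    D.T hS hH (a ⊗ₜ f) = f.1 a := rfl

theorem T_equiv (hS : SIr r) (hH : IsOpen (H : Set P)) (x : H) (a : A) (f : HomG r S A ⊤) :
    D.T hS hH (D.ρ₁ x a ⊗ₜ D.γ x f) = r x (D.T hS hH (a ⊗ₜ f)) := by
  rw [T_apply, T_apply, ρ₁_apply, γ_R]

theorem det_r (hS : SIr r) (hH : IsOpen (H : Set P)) (x : H) : LinearMap.det (r x) =
    LinearMap.det (D.γ x) ^ finrank E A := by
  have h1 : LinearMap.det (r x) = LinearMap.det (TensorProduct.map (D.ρ₁ x) (D.γ x)) := by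
    rw [← LinearMap.det_conj _ (D.T hS hH)]
    congr 1
    refine LinearMap.ext fun y => ?_
    obtain ⟨z, rfl⟩ := (D.T hS hH).surjective y
    rw [LinearMap.comp_apply, LinearMap.comp_apply, LinearEquiv.coe_coe, LinearEquiv.coe_coe,
      LinearEquiv.symm_apply_apply]
    induction z using TensorProduct.induction_on with
    | zero => simp
    | tmul a f => rw [TensorProduct.map_tmul]; exact (D.T_equiv hS hH x a f).symm
    | add u v hu hv => rw [map_add, map_add, map_add, map_add, hu, hv]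
  rw [h1, det_tmap, ρ₁_apply, D.det x x.2, one_pow, one_mul]

theorem sir_γ (hS : SIr r) (hH : IsOpen (H : Set P)) : SIr D.γ := by
  intro K hK
  have hnt := D.nontrivial
  refine ⟨top_ne_bot, fun _ _ _ _ => trivial, fun W _ hW => ?_⟩
  by_cases hW0 : W = ⊥
  · exact Or.inl hW0
  right
  have hKo : IsOpen ((K.map H.subtype : Subgroup P) : Set P) := by
    rw [Subgroup.coe_map]
    exact hH.isOpenMap_subtype_val _ hK
  have hKH : ∀ x ∈ K.map H.subtype, x ∈ H := by
    rintro _ ⟨x, -, rfl⟩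
    exact x.2
  have h1 := D.sup_eq_top hS hKo hKH hW0 (by
    rintro _ ⟨x, hx, rfl⟩ f hf
    exact hW x hx f hf)
  have h2 : LinearMap.range ((TensorProduct.lift (ev r S A ⊤)) ∘ₗ
      (TensorProduct.map LinearMap.id W.subtype)) = ⊤ := by
    refine top_le_iff.1 (h1.symm.le.trans (iSup_le fun f => ?_))
    rintro _ ⟨a, rfl⟩
    exact ⟨a ⊗ₜ f, rfl⟩
  have h3 : finrank E Y ≤ finrank E A * finrank E W := by
    have hfree : Module.Free E W := Module.Free.of_divisionRing E W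
    have h5 : finrank E (A ⊗[E] W) = finrank E A * finrank E W := Module.finrank_tensorProduct
    rw [← h5, ← finrank_top E Y]
    refine (congrArg (fun Z : Submodule E Y => finrank E Z) h2).symm.le.trans ?_
    exact LinearMap.finrank_range_le _
  have h4 : finrank E A * finrank E (HomG r S A ⊤) = finrank E Y := by
    rw [← Module.finrank_tensorProduct]
    exact (D.T hS hH).finrank_eq
  have hpos : 0 < finrank E A := by
    have : Nontrivial A := Submodule.nontrivial_iff_ne_bot.2 D.ir.1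
    exact finrank_pos
  refine Submodule.eq_top_of_finrank_eq (le_antisymm (Submodule.finrank_le _) ?_)
  exact Nat.le_of_mul_le_mul_left (h4.le.trans h3) hpos

theorem cont_ρ₁ (hR : TId (𝓝 (1 : P)) R) : IsContinuousRep D.ρ₁ := by
  refine cont_of_one ?_
  exact hR.comp (continuous_subtype_val.tendsto (1 : H))

theorem cont_γ (hr : IsContinuousRep r) (hR : TId (𝓝 (1 : P)) R) : IsContinuousRep D.γ := by
  classical
  intro l f
  obtain ⟨L, hL⟩ := LinearMap.exists_extend l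
  have h1 : ∀ h : H, l (D.γ h f) = L (op r R h f.1) := by
    intro h
    rw [← hL]
    rfl
  simp_rw [h1]
  refine cont_hom (fun l a => ?_) L
  let b := Module.finBasis E Y
  have h2 : (fun h : H => l (op r R h f.1 a)) =
      fun h : H => ∑ k, (b.coord k ∘ₗ f.1) (D.ρ₁ h⁻¹ a) * l (r h (b k)) := by
    funext h
    rw [op_apply]
    conv_lhs => rw [← b.sum_repr (f.1 (R (h : P)⁻¹ a))]
    rw [map_sum, map_sum]
    refine Finset.sum_congr rfl fun k _ => ?_
    rw [map_smul, map_smul, smul_eq_mul]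
    rfl
  rw [h2]
  refine continuous_finsetSum _ fun k _ => ?_
  exact ((D.cont_ρ₁ hR (b.coord k ∘ₗ f.1) a).comp continuous_inv).mul
    ((hr l (b k)).comp continuous_subtype_val)

end Dat

variable [CompactSpace P] [TotallyDisconnectedSpace P]

/-- **The decomposition with respect to a normal subgroup.** -/
theorem core (hr : IsContinuousRep r) (hS : SIr r) (N : Subgroup P) [N.Normal] {n : ℕ}
    (hn : 0 < n) :
    ∃ (H : Subgroup P) (A M : Type) (_ : AddCommGroup A) (_ : Module E A) (_ : AddCommGroup M)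
      (_ : Module E M) (ρ₁ : Representation E H A) (γ : Representation E H M)
      (T : (A ⊗[E] M) ≃ₗ[E] Y),
      IsOpen (H : Set P) ∧ FiniteDimensional E A ∧ FiniteDimensional E M ∧
      IsContinuousRep ρ₁ ∧ IsContinuousRep γ ∧
      (∀ (h : H) a m, T (ρ₁ h a ⊗ₜ γ h m) = r h (T (a ⊗ₜ m))) ∧
      (∀ h, LinearMap.det (ρ₁ h) = 1) ∧
      (∀ h : H, (∀ x ∈ N, (h : P) * x = x * h) → ρ₁ h = 1) ∧
      (∀ h : H, (h : P) ∈ N → ∃ s : E, γ h = s • 1) ∧
      ((∀ x ∈ N, LinearMap.det (r x) ^ n = 1) → ∀ h : H, (h : P) ∈ N → γ h = 1) ∧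
      (∀ K : Subgroup P, IsOpen (K : Set P) → Ir ρ₁ {h | (h : P) ∈ N ∧ (h : P) ∈ K} ⊤) ∧
      SIr γ ∧ (∀ h : H, LinearMap.det (r h) = LinearMap.det (γ h) ^ finrank E A) := by
  classical
  have htop := hS ⊤ isOpen_univ
  obtain ⟨H₁, A, -, hH₁o, hH₁n, hA⟩ := exists_min (r := r) (N : Set P) ⊤ htop.1
    ⟨⊤, isOpen_univ, fun _ _ _ _ => trivial⟩
  set S : Subgroup P := N ⊓ H₁ with hSdef
  have hSn : S.Normal := inferInstance
  have hAS : Ir r (S : Set P) A := by
    rw [hSdef, Subgroup.coe_inf]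
    exact hA H₁ le_rfl hH₁o
  obtain ⟨T, hTA, hT, hT'⟩ := exists_eproj hAS htop
  have hAnt : Nontrivial A := Submodule.nontrivial_iff_ne_bot.2 hAS.1
  have hMnt : Nontrivial (HomG r S A ⊤) := hom_nontrivial hAS le_top
  set k := finrank E (HomG r S A ⊤) * finrank E A * n with hk
  have hk0 : 0 < k := Nat.mul_pos (Nat.mul_pos finrank_pos finrank_pos) hn
  obtain ⟨H₂, R, hH₂o, hH₂n, hRT, hRmul, hRdet, hRtw, hRsc, hRs⟩ :=
    exists_lift hr hAS hTA hT hT' hk0
  set H := H₁ ⊓ H₂ with hH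
  have hHo : IsOpen (H : Set P) := by
    rw [hH, Subgroup.coe_inf]
    exact hH₁o.inter hH₂o
  have D : Dat r S A H R :=
    { normal := hSn
      ir := hAS
      mul := fun x hx y hy => hRmul x hx.2 y hy.2
      det := fun x hx => hRdet x hx.2
      tw := hRtw }
  have hNs : ∀ (h : H), (h : P) ∈ N → ∃ s : E, s ≠ 0 ∧
      (∀ a, (R h a : Y) = s⁻¹ • r h a) ∧ (s ^ k = 1 → s = 1) := by
    intro h hh
    exact hRs h h.2.2 (hAS.2.1 h ⟨hh, h.2.1⟩)
  have hγ : ∀ h : H, (h : P) ∈ N → ∃ s : E, D.γ h = s • 1 ∧ (s ^ k = 1 → s = 1) := by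
    intro h hh
    obtain ⟨s, hs0, hs, hs1⟩ := hNs h hh
    refine ⟨s, ?_, hs1⟩
    refine LinearMap.ext fun f => Subtype.ext (LinearMap.ext fun a => ?_)
    obtain ⟨a, rfl⟩ : ∃ a', R h a' = a := ⟨R (h : P)⁻¹ a, D.mul_inv h.2 a⟩
    rw [D.γ_R]
    have h1 : ((s • R h a : A) : Y) = r h a := by
      rw [Submodule.coe_smul, hs, smul_smul, mul_inv_cancel₀ hs0, one_smul]
    rw [← f.2.1 h ⟨hh, h.2.1⟩ a _ h1, map_smul]
    rfl
  refine ⟨H, A, HomG r S A ⊤, inferInstance, inferInstance, inferInstance, inferInstance,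
    D.ρ₁, D.γ, D.T hS hHo, hHo, inferInstance, inferInstance, D.cont_ρ₁ hRT, D.cont_γ hr hRT,
    D.T_equiv hS hHo, fun h => D.det h h.2, ?_, ?_, ?_, ?_, D.sir_γ hS hHo, D.det_r hS hHo⟩
  · -- the centralizer
    intro h hh
    obtain ⟨s, hs⟩ := schur hAS (R h) (by
      intro g hg a a' hgg
      rw [hRtw h g hg a a' hgg, hh g hg.1, mul_inv_cancel_right])
    refine hRsc h h.2.2 s ?_
    ext a
    rw [hs a]
    rfl
  · -- the second factor is scalar
    intro h hh
    obtain ⟨s, hs, -⟩ := hγ h hh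
    exact ⟨s, hs⟩
  · -- the second factor is trivial
    intro hdet h hh
    obtain ⟨s, hs, hs1⟩ := hγ h hh
    have h1 : s = 1 := by
      apply hs1
      have h2 := hdet h hh
      rw [D.det_r hS hHo h, hs, LinearMap.det_smul, map_one, mul_one, ← pow_mul, ← pow_mul,
        ← mul_assoc] at h2
      exact h2
    rw [hs, h1, one_smul]
  · -- irreducibility
    intro K hK
    refine ⟨top_ne_bot, fun _ _ _ _ => trivial, fun W _ hW => ?_⟩
    have hKH : K ⊓ H ≤ H₁ := inf_le_right.trans inf_le_left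
    have hKHo : IsOpen ((K ⊓ H : Subgroup P) : Set P) := by
      rw [Subgroup.coe_inf]
      exact hK.inter hHo
    have h1 := hA (K ⊓ H) hKH hKHo
    have h2 : St r ((N : Set P) ∩ (K ⊓ H : Subgroup P)) (W.map A.subtype) := by
      rintro g ⟨hgN, hgK, hgH⟩ _ ⟨w, hw, rfl⟩
      obtain ⟨s, hs0, hs, -⟩ := hNs ⟨g, hgH⟩ hgN
      have h3 := hW ⟨g, hgH⟩ ⟨hgN, hgK⟩ w hw
      refine ⟨s • R g w, W.smul_mem s h3, ?_⟩
      change ((s • R g w : A) : Y) = r g w
      rw [Submodule.coe_smul, hs, smul_smul, mul_inv_cancel₀ hs0, one_smul]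
    rcases h1.2.2 _ (Submodule.map_subtype_le _ _) h2 with h3 | h3
    · left
      rw [eq_bot_iff]
      intro u hu
      have h4 : (u : Y) ∈ W.map A.subtype := ⟨u, hu, rfl⟩
      rw [h3, Submodule.mem_bot] at h4
      exact Subtype.ext h4
    · right
      rw [eq_top_iff]
      intro u _
      have h4 : (u : Y) ∈ W.map A.subtype := by rw [h3]; exact u.2
      obtain ⟨u', hu', h5⟩ := h4
      rwa [Subtype.ext h5] at hu'

end

end Pool.Agent.K1H12.RP
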