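import Pool.Agent.K1H12.RP.Top

/-!
# Constituents of the restriction to a normal subgroup and intertwining maps
-/

set_option autoImplicit false
set_option linter.unusedSectionVars false

open Filter Topology Module

namespace Pool.Agent.K1H12.RP

open Pool.Agent.K1H13.GO

variable {E : Type} [NormedField E] {Y : Type} [AddCommGroup Y] [Module E Y]
  {P : Type} [Group P] {r : Representation E P Y}

section top

variable [TopologicalSpace P]

/-- Irreducible under all open subgroups. -/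
def SIr (r : Representation E P Y) : Prop :=
  ∀ H : Subgroup P, IsOpen (H : Set P) → Ir r (H : Set P) ⊤

variable [FiniteDimensional E Y] [IsTopologicalGroup P] [CompactSpace P]
  [TotallyDisconnectedSpace P]

/-- a constituent which is irreducible under all open subgroups -/
theorem exists_min (S : Set P) (Z : Submodule E Y) (hZ : Z ≠ ⊥)
    (hZS : ∃ H : Subgroup P, IsOpen (H : Set P) ∧ St r (S ∩ H) Z) :
    ∃ (H₁ : Subgroup P) (A : Submodule E Y), A ≤ Z ∧ IsOpen (H₁ : Set P) ∧ H₁.Normal ∧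
      ∀ H ≤ H₁, IsOpen (H : Set P) → Ir r (S ∩ H) A := by
  classical
  have hex : ∃ n, ∃ A : Submodule E Y, A ≤ Z ∧ A ≠ ⊥ ∧ finrank E A = n ∧
      ∃ H : Subgroup P, IsOpen (H : Set P) ∧ St r (S ∩ H) A := by
    obtain ⟨H, hH, hst⟩ := hZS
    exact ⟨_, Z, le_rfl, hZ, rfl, H, hH, hst⟩
  obtain ⟨A, hAZ, hA0, hAn, H₀, hH₀, hst⟩ := Nat.find_spec hex
  obtain ⟨H₁, hH₁, hN, hle⟩ := small (p := fun x => x ∈ H₀) (hH₀.mem_nhds H₀.one_mem)
  refine ⟨H₁, A, hAZ, hH₁, hN, fun H hH hHo => ⟨hA0, ?_, fun W hW hWst => ?_⟩⟩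
  · exact fun g hg u hu => hst g ⟨hg.1, hle g (hH hg.2)⟩ u hu
  · by_cases hW0 : W = ⊥
    · exact Or.inl hW0
    right
    have h1 := Nat.find_min' hex ⟨W, hW.trans hAZ, hW0, rfl, H, hHo, hWst⟩
    rw [← hAn] at h1
    exact Submodule.eq_of_le_of_finrank_le hW h1

end top

/-- the translates span -/
theorem iSup_translates {A : Submodule E Y} (hA : A ≠ ⊥) (hr : Ir r (⊤ : Subgroup P) ⊤) :
    (⨆ w : P, A.map (r w)) = ⊤ := by
  have hst : St r (⊤ : Subgroup P) (⨆ w : P, A.map (r w)) := by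
    intro g _
    have h2 : (⨆ w : P, A.map (r w)) ≤ (⨆ w : P, A.map (r w)).comap (r g) := by
      refine iSup_le fun w => ?_
      rintro _ ⟨u, hu, rfl⟩
      refine (le_iSup (fun w : P => A.map (r w)) (g * w)) ?_
      exact ⟨u, hu, r_mul _ _ _⟩
    exact fun u hu => h2 hu
  rcases hr.2.2 _ le_top hst with h | h
  · exfalso
    apply hA
    rw [eq_bot_iff, ← h]
    refine le_trans ?_ (le_iSup (fun w : P => A.map (r w)) 1)
    intro u hu
    refine ⟨u, hu, ?_⟩
    change r 1 u = u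
    rw [map_one]
    rfl
  · exact h

/-- an equivariant projection -/
theorem exists_eproj [FiniteDimensional E Y] {S : Subgroup P} [S.Normal] {A : Submodule E Y}
    (hA : Ir r S A) (hr : Ir r (⊤ : Subgroup P) ⊤) :
    ∃ T : Y →ₗ[E] Y, (∀ a ∈ A, T a = a) ∧ (∀ v, T v ∈ A) ∧
      ∀ n ∈ S, ∀ v, T (r n v) = r n (T v) := by
  classical
  obtain ⟨C, ⟨hC, hd⟩, hmax⟩ := (wellFounded_gt (α := Submodule E Y)).has_min
    {C : Submodule E Y | St r S C ∧ Disjoint C A} ⟨⊥, fun g _ u hu => by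
      rw [Submodule.mem_bot] at hu ⊢
      rw [hu, map_zero], disjoint_bot_left⟩
  have htop : C ⊔ A = ⊤ := by
    by_contra hne
    have h1 : ∃ w : P, ¬ A.map (r w) ≤ C ⊔ A := by
      by_contra hcon
      push Not at hcon
      apply hne
      rw [eq_top_iff, ← iSup_translates hA.1 hr]
      exact iSup_le hcon
    obtain ⟨w, hw⟩ := h1
    have hir := ir_map hA w
    have hCA : St r S (C ⊔ A) := hC.sup hA.2.1
    have hd' : Disjoint (C ⊔ A) (A.map (r w)) := by
      rw [disjoint_iff]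
      rcases hir.2.2 _ inf_le_right (hCA.inf hir.2.1) with h | h
      · exact h
      · exact absurd (h ▸ inf_le_left) hw
    refine hmax (C ⊔ A.map (r w)) ⟨hC.sup hir.2.1, ?_⟩ ?_
    · rw [Submodule.disjoint_def]
      intro x hx hxA
      obtain ⟨c, hc, y, hy, rfl⟩ := Submodule.mem_sup.1 hx
      have h2 : y ∈ C ⊔ A := by
        have h3 : y = (c + y) - c := by abel
        rw [h3]
        exact (C ⊔ A).sub_mem (Submodule.mem_sup_right hxA) (Submodule.mem_sup_left hc)
      have h3 : y = 0 := (Submodule.disjoint_def.1 hd') y h2 hy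
      rw [h3, add_zero] at hxA ⊢
      exact (Submodule.disjoint_def.1 hd) c hc hxA
    · refine lt_of_le_of_ne le_sup_left fun h => hw ?_
      have h4 : A.map (r w) ≤ C := by
        rw [h]
        exact le_sup_right
      exact h4.trans le_sup_left
  obtain ⟨T, hT1, hT2, hT3⟩ := exists_proj hd
  refine ⟨T, hT1, hT3, fun n hn v => ?_⟩
  obtain ⟨c, hc, a, ha, rfl⟩ := Submodule.mem_sup.1 (htop ▸ Submodule.mem_top : v ∈ C ⊔ A)
  rw [map_add, map_add, map_add, hT2 _ (hC n hn c hc), hT2 c hc, hT1 _ (hA.2.1 n hn a ha),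
    hT1 a ha, zero_add, zero_add]

/-- maps which intertwine the action of a normal subgroup and its conjugate by `w` -/
def Tw (r : Representation E P Y) (S : Set P) (A : Submodule E Y) (w : P) (F : A →ₗ[E] A) :
    Prop :=
  ∀ n ∈ S, ∀ a a' : A, (a' : Y) = r n a → (F a' : Y) = r (w * n * w⁻¹) (F a)

theorem Tw.smul {S : Set P} {A : Submodule E Y} {w : P} {F : A →ₗ[E] A} (hF : Tw r S A w F)
    (c : E) : Tw r S A w (c • F) := by
  intro n hn a a' h
  rw [LinearMap.smul_apply, LinearMap.smul_apply, Submodule.coe_smul, Submodule.coe_smul,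
    hF n hn a a' h, map_smul]

theorem Tw.mul {S : Subgroup P} [hS : S.Normal] {A : Submodule E Y} {w x : P} {F G : A →ₗ[E] A}
    (hF : Tw r S A w F) (hG : Tw r S A x G) : Tw r S A (w * x) (F * G) := by
  intro n hn a a' h
  rw [Module.End.mul_apply, Module.End.mul_apply,
    hF _ (hS.conj_mem n hn x) (G a) (G a') (hG n hn a a' h)]
  congr 2
  group

theorem Tw.unique [IsAlgClosed E] [FiniteDimensional E Y] {S : Set P} {A : Submodule E Y}
    (hA : Ir r S A) {w : P} {F G : A →ₗ[E] A} (hF : Tw r S A w F) (hG : Tw r S A w G)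
    (hGi : Function.Injective G) : ∃ s : E, F = s • G := by
  have hGs : Function.Surjective G := LinearMap.injective_iff_surjective.1 hGi
  let e := LinearEquiv.ofBijective G ⟨hGi, hGs⟩
  have he : ∀ a, G (e.symm a) = a := fun a => e.apply_symm_apply a
  obtain ⟨s, hs⟩ := schur hA (e.symm.toLinearMap ∘ₗ F) (by
    intro n hn a a' h
    let b : A := e.symm (F a)
    let b' : A := ⟨r n b, hA.2.1 n hn b b.2⟩
    have h1 : (G b' : Y) = F a' := by
      rw [hG n hn b b' rfl, hF n hn a a' h]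
      have h2 : G b = F a := he _
      rw [h2]
    have h2 : e.symm (F a') = b' := by
      apply hGi
      rw [he]
      exact Subtype.ext h1.symm
    change ((e.symm (F a') : A) : Y) = r n b
    rw [h2])
  refine ⟨s, ?_⟩
  ext a
  have h1 : e.symm (F a) = s • a := hs a
  have h2 : F a = s • G a := by
    rw [← he (F a), h1, map_smul]
  rw [h2]
  rfl

/-- the compressions -/
def Cm (r : Representation E P Y) (A : Submodule E Y) (T : Y →ₗ[E] Y) (hT : ∀ v, T v ∈ A)
    (w : P) : A →ₗ[E] A :=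
  (T ∘ₗ (r w) ∘ₗ A.subtype).codRestrict A fun _ => hT _

theorem Cm_apply {A : Submodule E Y} {T : Y →ₗ[E] Y} (hT : ∀ v, T v ∈ A) (w : P) (a : A) :
    (Cm r A T hT w a : Y) = T (r w a) := rfl

theorem Cm_tw {S : Subgroup P} [hS : S.Normal] {A : Submodule E Y} {T : Y →ₗ[E] Y}
    (hT : ∀ v, T v ∈ A) (hT' : ∀ n ∈ S, ∀ v, T (r n v) = r n (T v)) (w : P) :
    Tw r S A w (Cm r A T hT w) := by
  intro n hn a a' h
  rw [Cm_apply, Cm_apply, h, ← hT' _ (hS.conj_mem n hn w), ← r_mul, ← r_mul]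
  congr 3
  group

theorem Cm_of_stable {A : Submodule E Y} {T : Y →ₗ[E] Y}
    (hT : ∀ v, T v ∈ A) (hTA : ∀ a ∈ A, T a = a) {w : P} (hw : ∀ u ∈ A, r w u ∈ A) (a : A) :
    (Cm r A T hT w a : Y) = r w a := by
  rw [Cm_apply, hTA _ (hw a a.2)]

theorem Cm_tendsto [TopologicalSpace P] [FiniteDimensional E Y] {A : Submodule E Y}
    {T : Y →ₗ[E] Y} (hT : ∀ v, T v ∈ A) (hTA : ∀ a ∈ A, T a = a) (hr : IsContinuousRep r) :
    TId (𝓝 (1 : P)) (Cm r A T hT) := by
  intro L a
  have h1 : ∀ w, L (Cm r A T hT w a) = (L ∘ₗ T.codRestrict A hT) (r w a) := fun w => rfl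
  simp_rw [h1]
  have h2 := (hr (L ∘ₗ T.codRestrict A hT) a).tendsto 1
  have h3 : (L ∘ₗ T.codRestrict A hT) (r 1 (a : Y)) = L a := by
    rw [map_one]
    change L (T.codRestrict A hT (a : Y)) = L a
    congr 1
    exact Subtype.ext (hTA a a.2)
  rw [h3] at h2
  exact h2

end Pool.Agent.K1H12.RP
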