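import Pool.Agent.K1H13.GO.Notions

/-!
# Lisse sheaves on fibrations and fibre products: notions
-/

set_option autoImplicit false

namespace Pool.Agent.K1H12.RP

open Module TensorProduct Pool.Agent.K1H13.GO

/-- The continuous characters of the open subgroups `Δ` of `W` are of finite order on the elements
of the subgroup `geom`. For the fundamental group `W` of a smooth variety over a finite field and
its geometric fundamental group this is a consequence of class field theory
(Deligne, Weil II, 1.3.1). -/
def CharactersFinite (E : Type) [Field E] [TopologicalSpace E] {W : Type} [Group W]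
    [TopologicalSpace W] (geom : Subgroup W) : Prop :=
  ∀ Δ : Subgroup W, IsOpen (Δ : Set W) → ∀ ψ : Δ →* E, Continuous ψ →
    ∃ n : ℕ, 0 < n ∧ ∀ g : Δ, (g : W) ∈ geom → ψ g ^ n = 1

section reps

variable {E : Type} [Field E] {P : Type} [Group P] [TopologicalSpace P]
  {H : Subgroup P} {A : Type} [AddCommGroup A] [Module E A]

/-- The representation `ρ` of the subgroup `H` of `P` is irreducible under `N ∩ L ∩ H` for every
open subgroup `L` of `P`. -/
def StronglyIrreducibleOn (N : Subgroup P) (ρ : Representation E H A) : Prop :=
  Nontrivial A ∧ ∀ L : Subgroup P, IsOpen (L : Set P) → ∀ U : Submodule E A,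
    (∀ h : H, (h : P) ∈ N → (h : P) ∈ L → ∀ u ∈ U, ρ h u ∈ U) → U = ⊥ ∨ U = ⊤

/-- The elements of `N ∩ H` act trivially. -/
def TrivialOn (N : Subgroup P) (ρ : Representation E H A) : Prop :=
  ∀ h : H, (h : P) ∈ N → ρ h = 1

/-- The elements of `N ∩ H` act by scalars. -/
def ScalarOn (N : Subgroup P) (ρ : Representation E H A) : Prop :=
  ∀ h : H, (h : P) ∈ N → ∃ s : E, ρ h = s • 1

variable [TopologicalSpace E]

/-- A continuous representation with trivial determinant, which is trivial on `N'` and irreducible
under `N` and its intersections with open subgroups. -/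
def IsFibral (N N' : Subgroup P) (ρ : Representation E H A) : Prop :=
  FiniteDimensional E A ∧ IsContinuousRep ρ ∧ (∀ h, LinearMap.det (ρ h) = 1) ∧ TrivialOn N' ρ ∧
    StronglyIrreducibleOn N ρ

/-- A continuous representation on which `N₁` and `N₂` act by scalars, and which is irreducible
under all open subgroups. -/
def IsBasic (N₁ N₂ : Subgroup P) (ρ : Representation E H A) : Prop :=
  FiniteDimensional E A ∧ IsContinuousRep ρ ∧ ScalarOn N₁ ρ ∧ ScalarOn N₂ ρ ∧
    StronglyIrreducibleOn ⊤ ρ

end reps

end Pool.Agent.K1H12.RP
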