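import Pool.Agent.K1H12.RP.Pair
import Pool.Agent.K1H12.RP.Notions

/-!
# Lisse sheaves on fibrations and fibre products: the theorem
-/

set_option autoImplicit false
set_option linter.unusedSectionVars false

open Filter Topology Module TensorProduct

namespace Pool.Agent.K1H12.RP

open Pool.Agent.K1H13.GO

noncomputable section

section det

variable {E : Type} [NormedField E] {V : Type} [AddCommGroup V] [Module E V]
  [FiniteDimensional E V] {W : Type} [Group W] [TopologicalSpace W] [IsTopologicalGroup W]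
  {ρ : Representation E W V}

/-- **Determinants on irreducible representations and their constituents.** -/
theorem det_chain' {Q : Type} [Group Q] {r : Representation E Q V} {N H : Subgroup Q} [hN : N.Normal] (hNH : N ≤ H)
    {U Y : Submodule E V} (hU : Ir r N U) (hY : Ir r H Y) (hUY : U ≤ Y) {x : Q} (hx : x ∈ N)
    {n : ℕ} (hn : ∀ w : Q, dt r U (w⁻¹ * x * w) (hU.2.1 _ (by
      have h1 := hN.conj_mem x hx w⁻¹
      rwa [inv_inv] at h1)) ^ n = dt r U x (hU.2.1 x hx) ^ n) :
    ∃ k, 0 < k ∧ finrank E Y = k * finrank E U ∧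
      dt r Y x (hY.2.1 x (hNH hx)) ^ n = dt r U x (hU.2.1 x hx) ^ (n * k) := by
  have key : ∀ (l : ℕ) (Z : Submodule E V) (hZ : St r N Z), Z ≤ Y → finrank E Y - finrank E Z = l →
      (∃ k, 0 < k ∧ finrank E Z = k * finrank E U ∧
        dt r Z x (hZ x hx) ^ n = dt r U x (hU.2.1 x hx) ^ (n * k)) →
      ∃ k, 0 < k ∧ finrank E Y = k * finrank E U ∧
        dt r Y x (hY.2.1 x (hNH hx)) ^ n = dt r U x (hU.2.1 x hx) ^ (n * k) := by
    intro l
    induction l using Nat.strong_induction_on with
    | _ l ih =>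
      rintro Z hZ hZY hl ⟨k, hk, hkd, hk'⟩
      by_cases hall : ∀ w ∈ H, U.map (r w) ≤ Z
      · -- everything
        have h1 : (⨆ w : H, U.map (r w)) = Y := by
          have hle : (⨆ w : H, U.map (r w)) ≤ Y := by
            refine iSup_le fun w => ?_
            rintro _ ⟨u, hu, rfl⟩
            exact hY.2.1 w w.2 u (hUY hu)
          have hst : St r H (⨆ w : H, U.map (r w)) := by
            intro g hg
            have h2 : (⨆ w : H, U.map (r w)) ≤ (⨆ w : H, U.map (r w)).comap (r g) := by
              refine iSup_le fun w => ?_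
              rintro _ ⟨u, hu, rfl⟩
              refine (le_iSup (fun w : H => U.map (r w)) (⟨g, hg⟩ * w)) ?_
              exact ⟨u, hu, r_mul _ _ _⟩
            exact fun u hu => h2 hu
          rcases hY.2.2 _ hle hst with h | h
          · exfalso
            apply hU.1
            rw [eq_bot_iff, ← h]
            refine le_trans ?_ (le_iSup (fun w : H => U.map (r w)) 1)
            intro u hu
            refine ⟨u, hu, ?_⟩
            change r 1 u = u
            rw [map_one]
            rfl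
          · exact h
        have h2 : Z = Y := le_antisymm hZY (by
          rw [← h1]
          exact iSup_le fun w => hall w w.2)
        subst h2
        exact ⟨k, hk, hkd, hk'⟩
      · push Not at hall
        obtain ⟨w, hw, hwZ⟩ := hall
        have hir := ir_map hU w
        have hd : Disjoint Z (U.map (r w)) := by
          rw [disjoint_iff]
          rcases hir.2.2 _ inf_le_right (hZ.inf hir.2.1) with h | h
          · exact h
          · exact absurd (h ▸ inf_le_left) hwZ
        have hsup : Z ⊔ U.map (r w) ≤ Y := by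
          refine sup_le hZY ?_
          rintro _ ⟨u, hu, rfl⟩
          exact hY.2.1 w hw u (hUY hu)
        have hlt : finrank E Z < finrank E (Z ⊔ U.map (r w) : Submodule E V) := by
          refine Submodule.finrank_lt_finrank_of_lt (lt_of_le_of_ne le_sup_left fun h => hwZ ?_)
          rw [h]; exact le_sup_right
        have hle := Submodule.finrank_mono (R := E) hsup
        refine ih (finrank E Y - finrank E (Z ⊔ U.map (r w) : Submodule E V)) (by omega) _
          (hZ.sup hir.2.1) hsup rfl ⟨k + 1, Nat.succ_pos k, ?_, ?_⟩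
        · have h5 := Submodule.finrank_sup_add_finrank_inf_eq Z (U.map (r w))
          rw [disjoint_iff.1 hd, finrank_bot, add_zero] at h5
          rw [h5, hkd, (Submodule.equivMapOfInjective (r w) (r_inj w) U).finrank_eq.symm]
          ring
        rw [dt_sup hd (hZ x hx) (hir.2.1 x hx), mul_pow, hk', dt_conj (hU.2.1 _ (by
          have h1 := hN.conj_mem x hx w⁻¹
          rwa [inv_inv] at h1)), hn w, ← pow_add]
        congr 1
  exact key _ U hU.2.1 hUY rfl ⟨1, one_pos, by rw [one_mul], by rw [mul_one]⟩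

/-- the determinants of the constituents for open subgroups of finite index are of finite order -/
theorem det_fin {geom : Subgroup W} (hcom : ∀ x y : W, x * y * x⁻¹ * y⁻¹ ∈ geom)
    (hcft : CharactersFinite E geom) (hρ : IsContinuousRep ρ) (hirr : Ir ρ (⊤ : Subgroup W) ⊤)
    (hdet : FiniteDeterminant ρ) {H : Subgroup W} (hHo : IsOpen (H : Set W))
    (hHf : H.FiniteIndex) {Y : Submodule E V} (hY : Ir ρ H Y) :
    ∃ n : ℕ, 0 < n ∧ ∀ (g : W) (hg : g ∈ H), dt ρ Y g (hY.2.1 g hg) ^ n = 1 := by
  classical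
  obtain ⟨t, ht, hdet⟩ := hdet
  set N := H.normalCore with hN
  have hNf : N.FiniteIndex := inferInstance
  have hNo : IsOpen (N : Set W) := Subgroup.isOpen_of_isClosed_of_finiteIndex _
    (H.normalCore_isClosed (H.isClosed_of_isOpen hHo))
  have hNH : N ≤ H := H.normalCore_le
  obtain ⟨U, hUY, hU⟩ := exists_ir (r := ρ) (S := N) _ Y rfl hY.1
    (fun g hg => hY.2.1 g (hNH hg))
  obtain ⟨n, hn, hn'⟩ := hcft N hNo (dtHom hU.2.1) (dt_continuous hρ hU.2.1)
  have hn'' : ∀ (g : W) (hg : g ∈ N), g ∈ geom → dt ρ U g (hU.2.1 g hg) ^ n = 1 :=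
    fun g hg h => hn' ⟨g, hg⟩ h
  have hconj : ∀ x ∈ N, ∀ w : W, w⁻¹ * x * w ∈ N := fun x hx w => by
    have h1 := (inferInstance : N.Normal).conj_mem x hx w⁻¹
    rwa [inv_inv] at h1
  have hkey : ∀ (x : W) (hx : x ∈ N) (w : W), dt ρ U (w⁻¹ * x * w) (hU.2.1 _ (hconj x hx w)) ^ n =
      dt ρ U x (hU.2.1 x hx) ^ n := by
    intro x hx w
    have hy : x⁻¹ * (w⁻¹ * x * w) ∈ N := N.mul_mem (N.inv_mem hx) (hconj x hx w)
    have hy1 : x⁻¹ * (w⁻¹ * x * w) ∈ geom := by
      have h1 := hcom x⁻¹ w⁻¹
      rwa [inv_inv, inv_inv, mul_assoc, mul_assoc, ← mul_assoc w⁻¹] at h1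
    have h1 : w⁻¹ * x * w = x * (x⁻¹ * (w⁻¹ * x * w)) := by group
    rw [dt_congr rfl h1 (hU.2.1 _ (hconj x hx w)) (hU.2.1 _ (N.mul_mem hx hy)),
      dt_mul (hU.2.1 x hx) (hU.2.1 _ hy), mul_pow, hn'' _ hy hy1, mul_one]
  have htop : ∀ x : W, ∀ h : ∀ u ∈ (⊤ : Submodule E V), ρ x u ∈ (⊤ : Submodule E V),
      dt ρ ⊤ x h = LinearMap.det (ρ x) := by
    intro x h
    let e : (⊤ : Submodule E V) ≃ₗ[E] V := Submodule.topEquiv
    rw [dt, ← LinearMap.det_conj _ e]
    congr 1
  have hUpos : 0 < finrank E U := by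
    have : Nontrivial U := Submodule.nontrivial_iff_ne_bot.2 hU.1
    exact finrank_pos
  set l := finrank E (⊤ : Submodule E V) / finrank E U with hldef
  have hN1 : ∀ x (hx : x ∈ N), 0 < l ∧
      dt ρ Y x (hY.2.1 x (hNH hx)) ^ (n * l * t) = 1 := by
    intro x hx
    obtain ⟨k, hk, -, hk'⟩ := det_chain' (H := H) hNH hU hY hUY hx (hkey x hx)
    obtain ⟨l', hl, hld, hl'⟩ := det_chain' (H := ⊤) le_top hU hirr le_top hx (hkey x hx)
    have h0 : l' = l := by
      rw [hldef, hld, Nat.mul_div_cancel _ hUpos]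
    rw [h0] at hl hl'
    refine ⟨hl, ?_⟩
    have hU1 : dt ρ U x (hU.2.1 x hx) ^ (n * l * t) = 1 := by
      rw [pow_mul, ← hl', htop, ← pow_mul, mul_comm n t, pow_mul, hdet, one_pow]
    rw [mul_assoc n l t, pow_mul, hk', ← pow_mul, show n * k * (l * t) = n * l * t * k by ring,
      pow_mul, hU1, one_pow]
  have hl := (hN1 1 N.one_mem).1
  set j := N.index with hj
  have hj0 : 0 < j := Nat.pos_of_ne_zero hNf.index_ne_zero
  refine ⟨j * (n * l * t), by positivity, fun g hg => ?_⟩
  rw [pow_mul, ← dt_pow (hY.2.1 g hg) j (hY.2.1 _ (H.pow_mem hg j))]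
  exact (hN1 (g ^ j) (N.pow_index_mem g)).2

end det

end

end Pool.Agent.K1H12.RP
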