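import Pool.Agent.K1H12.RP.Cut

/-!
# Linear lifts of determinant one on a small open subgroup
-/

set_option autoImplicit false
set_option linter.unusedSectionVars false

open Filter Topology Module

namespace Pool.Agent.K1H12.RP

open Pool.Agent.K1H13.GO

variable {E : Type} [NormedField E] [IsAlgClosed E] {Y : Type} [AddCommGroup Y] [Module E Y]
  [FiniteDimensional E Y] {P : Type} [Group P] {r : Representation E P Y}
  [TopologicalSpace P] [IsTopologicalGroup P] [CompactSpace P] [TotallyDisconnectedSpace P]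

theorem inj_of_det {A : Type} [AddCommGroup A] [Module E A] [FiniteDimensional E A]
    {F : A →ₗ[E] A} (h : LinearMap.det F ≠ 0) : Function.Injective F := by
  have h1 : IsUnit F := (LinearMap.isUnit_iff_isUnit_det F).2 (isUnit_iff_ne_zero.2 h)
  exact ((Module.End.isUnit_iff F).1 h1).1

/-- **Lifts of determinant one.** -/
theorem exists_lift (hr : IsContinuousRep r) {S : Subgroup P} [S.Normal] {A : Submodule E Y}
    (hA : Ir r S A) {T : Y →ₗ[E] Y} (hTA : ∀ a ∈ A, T a = a) (hT : ∀ v, T v ∈ A)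
    (hT' : ∀ n ∈ S, ∀ v, T (r n v) = r n (T v)) {k : ℕ} (hk : 0 < k) :
    ∃ (H : Subgroup P) (R : P → (A →ₗ[E] A)), IsOpen (H : Set P) ∧ H.Normal ∧ TId (𝓝 1) R ∧
      (∀ x ∈ H, ∀ y ∈ H, R (x * y) = R x * R y) ∧ (∀ x ∈ H, LinearMap.det (R x) = 1) ∧
      (∀ x, Tw r S A x (R x)) ∧ (∀ x ∈ H, ∀ s : E, R x = s • 1 → R x = 1) ∧
      ∀ x ∈ H, (∀ u ∈ A, r x u ∈ A) → ∃ s : E, s ≠ 0 ∧ (∀ a, (R x a : Y) = s⁻¹ • r x a) ∧
        (s ^ k = 1 → s = 1) := by
  classical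
  have hnt : Nontrivial A := Submodule.nontrivial_iff_ne_bot.2 hA.1
  set d := finrank E A with hd
  have hd0 : 0 < d := finrank_pos
  set C := Cm r A T hT with hC
  have hCT : TId (𝓝 (1 : P)) C := Cm_tendsto hT hTA hr
  obtain ⟨c, hc, hc1⟩ := exists_root hd0 hCT.det
  set R : P → (A →ₗ[E] A) := fun x => (c x)⁻¹ • C x with hR
  have hRT : TId (𝓝 (1 : P)) R := hCT.smul hc1
  have hRtw : ∀ x, Tw r S A x (R x) := fun x => (Cm_tw hT hT' x).smul _
  have hdet : ∀ x, c x ≠ 0 → LinearMap.det (R x) = 1 := by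
    intro x hx
    rw [hR]
    change LinearMap.det ((c x)⁻¹ • C x) = 1
    rw [LinearMap.det_smul, ← hd, ← hc x, ← mul_pow, inv_mul_cancel₀ hx, one_pow]
  let b := Module.finBasis E A
  let i0 : Fin (finrank E A) := ⟨0, hd0⟩
  have hb : b.coord i0 (b i0) = 1 := by
    rw [Basis.coord_apply, Basis.repr_self, Finsupp.single_eq_same]
  obtain ⟨ε, hε, hsep⟩ := root_sep E hd0
  obtain ⟨ε', hε', hsep'⟩ := root_sep E hk
  have ev1 : ∀ᶠ x in 𝓝 (1 : P), c x ≠ 0 := hc1.eventually_ne one_ne_zero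
  have ev2 : ∀ᶠ x in 𝓝 (1 : P), ‖b.coord i0 (R x (b i0)) - 1‖ < ε := by
    have h1 := hRT (b.coord i0) (b i0)
    rw [hb] at h1
    have h2 := (Metric.tendsto_nhds.1 h1) ε hε
    filter_upwards [h2] with x hx
    rwa [dist_eq_norm] at hx
  have ev3 : ∀ᶠ x in 𝓝 (1 : P), ‖c x - 1‖ < ε' := by
    have h2 := (Metric.tendsto_nhds.1 hc1) ε' hε'
    filter_upwards [h2] with x hx
    rwa [dist_eq_norm] at hx
  have hA1 : TId (𝓝 (1 : P) ×ˢ 𝓝 (1 : P)) fun q : P × P => R q.1 * R q.2 :=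
    (hRT.comp tendsto_fst).mul (hRT.comp tendsto_snd)
  have hA2 : TId (𝓝 (1 : P) ×ˢ 𝓝 (1 : P)) fun q : P × P => R (q.1 * q.2) :=
    hRT.comp mul_tendsto
  have ev4 : ∀ᶠ q in 𝓝 (1 : P) ×ˢ 𝓝 (1 : P), b.coord i0 (R (q.1 * q.2) (b i0)) ≠ 0 := by
    have h1 := hA2 (b.coord i0) (b i0)
    rw [hb] at h1
    exact h1.eventually_ne one_ne_zero
  have ev5 : ∀ᶠ q in 𝓝 (1 : P) ×ˢ 𝓝 (1 : P),
      ‖b.coord i0 ((R q.1 * R q.2) (b i0)) / b.coord i0 (R (q.1 * q.2) (b i0)) - 1‖ < ε := by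
    have h1 := hA1 (b.coord i0) (b i0)
    have h2 := hA2 (b.coord i0) (b i0)
    rw [hb] at h1 h2
    have h3 := h1.div h2 one_ne_zero
    rw [div_one] at h3
    have h4 := (Metric.tendsto_nhds.1 h3) ε hε
    filter_upwards [h4] with x hx
    rwa [dist_eq_norm] at hx
  obtain ⟨H1, hH1o, hH1n, hH1⟩ := small ((ev1.and ev2).and ev3)
  obtain ⟨H2, hH2o, hH2n, hH2⟩ := small₂ (P := P)
    (p := fun x y => b.coord i0 (R (x * y) (b i0)) ≠ 0 ∧
      ‖b.coord i0 ((R x * R y) (b i0)) / b.coord i0 (R (x * y) (b i0)) - 1‖ < ε) (ev4.and ev5)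
  refine ⟨H1 ⊓ H2, R, ?_, inferInstance, hRT, ?_, ?_, hRtw, ?_, ?_⟩
  · rw [Subgroup.coe_inf]
    exact hH1o.inter hH2o
  · intro x hx y hy
    obtain ⟨h4, h5⟩ := hH2 x hx.2 y hy.2
    have hxy := (H1 ⊓ H2).mul_mem hx hy
    have hdxy := hdet (x * y) (hH1 _ hxy.1).1.1
    obtain ⟨s, hs⟩ := Tw.unique hA ((hRtw x).mul (hRtw y)) (hRtw (x * y))
      (inj_of_det (by rw [hdxy]; exact one_ne_zero))
    have h6 : s ^ d = 1 := by
      have h7 := congrArg LinearMap.det hs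
      rw [LinearMap.det_smul, map_mul, hdxy, hdet x (hH1 x hx.1).1.1, hdet y (hH1 y hy.1).1.1,
        mul_one, mul_one] at h7
      exact h7.symm
    have h7 : b.coord i0 ((R x * R y) (b i0)) / b.coord i0 (R (x * y) (b i0)) = s := by
      rw [hs, LinearMap.smul_apply, map_smul, smul_eq_mul, mul_div_assoc, div_self h4, mul_one]
    rw [h7] at h5
    rw [hs, hsep s h6 h5, one_smul]
  · exact fun x hx => hdet x (hH1 x hx.1).1.1
  · intro x hx s hs
    have h1 : s ^ d = 1 := by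
      have h7 : LinearMap.det (R x) = LinearMap.det (s • (1 : A →ₗ[E] A)) := congrArg _ hs
      rw [hdet x (hH1 x hx.1).1.1, LinearMap.det_smul, map_one, mul_one] at h7
      exact h7.symm
    have h2 := (hH1 x hx.1).1.2
    rw [hs, LinearMap.smul_apply, map_smul, Module.End.one_apply, hb, smul_eq_mul, mul_one] at h2
    rw [hs, hsep s h1 h2, one_smul]
  · intro x hx hst
    refine ⟨c x, (hH1 x hx.1).1.1, fun a => ?_, fun h => hsep' _ h (hH1 x hx.1).2⟩
    change (((c x)⁻¹ • C x) a : Y) = _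
    rw [LinearMap.smul_apply, Submodule.coe_smul, hC, Cm_of_stable hT hTA hst]

end Pool.Agent.K1H12.RP
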