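import Pool.Agent.K1H12.RP.Fin
import Pool.Agent.K1H13.GO.Thm

/-!
# Lisse sheaves on fibrations and fibre products: the decomposition
-/

set_option autoImplicit false
set_option linter.unusedSectionVars false

open Filter Topology Module TensorProduct

namespace Pool.Agent.K1H12.RP

open Pool.Agent.K1H13.GO

noncomputable section

section sub

variable {E : Type} [NormedField E] {V : Type} [AddCommGroup V] [Module E V]
  [FiniteDimensional E V] {P : Type} [Group P] [TopologicalSpace P] [IsTopologicalGroup P]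

/-- the restriction to a subgroup and a stable subspace -/
def sub (r : Representation E P V) (P0 : Subgroup P) (Y : Submodule E V)
    (h : ∀ x ∈ P0, ∀ u ∈ Y, r x u ∈ Y) : Representation E P0 Y where
  toFun x := (r x).restrict (h x x.2)
  map_one' := by
    refine LinearMap.ext fun u => Subtype.ext ?_
    change r (1 : P) (u : V) = u
    rw [map_one]
    rfl
  map_mul' x y := by
    refine LinearMap.ext fun u => Subtype.ext ?_
    change r ((x : P) * y) (u : V) = r x (r y u)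
    rw [map_mul]
    rfl

theorem sub_apply (r : Representation E P V) (P0 : Subgroup P) (Y : Submodule E V)
    (h : ∀ x ∈ P0, ∀ u ∈ Y, r x u ∈ Y) (x : P0) (u : Y) :
    (sub r P0 Y h x u : V) = r x u := rfl

theorem sub_cont {r : Representation E P V} (hr : IsContinuousRep r) (P0 : Subgroup P)
    (Y : Submodule E V) (h : ∀ x ∈ P0, ∀ u ∈ Y, r x u ∈ Y) : IsContinuousRep (sub r P0 Y h) := by
  intro l u
  obtain ⟨L, hL⟩ := LinearMap.exists_extend l
  have h1 : ∀ x : P0, l (sub r P0 Y h x u) = L (r x u) := by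
    intro x
    rw [← hL]
    rfl
  simp_rw [h1]
  exact (hr L u).comp continuous_subtype_val

theorem sub_sir {r : Representation E P V} {P0 : Subgroup P} (hP0 : IsOpen (P0 : Set P))
    {Y : Submodule E V} (h : ∀ x ∈ P0, ∀ u ∈ Y, r x u ∈ Y)
    (hY : ∀ H ≤ P0, IsOpen (H : Set P) → Ir r (Set.univ ∩ H) Y) : SIr (sub r P0 Y h) := by
  intro K hK
  have hKo : IsOpen ((K.map P0.subtype : Subgroup P) : Set P) := by
    rw [Subgroup.coe_map]
    exact hP0.isOpenMap_subtype_val _ hK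
  have hKP : K.map P0.subtype ≤ P0 := by
    rintro _ ⟨x, -, rfl⟩
    exact x.2
  have h1 := hY _ hKP hKo
  have hnt : Nontrivial Y := Submodule.nontrivial_iff_ne_bot.2 h1.1
  refine ⟨top_ne_bot, fun _ _ _ _ => trivial, fun U _ hU => ?_⟩
  have h2 : St r (Set.univ ∩ (K.map P0.subtype : Subgroup P)) (U.map Y.subtype) := by
    rintro _ ⟨-, x, hx, rfl⟩ _ ⟨u, hu, rfl⟩
    exact ⟨_, hU x hx u hu, rfl⟩
  rcases h1.2.2 _ (Submodule.map_subtype_le _ _) h2 with h3 | h3
  · left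
    rw [eq_bot_iff]
    intro u hu
    have h4 : (u : V) ∈ U.map Y.subtype := ⟨u, hu, rfl⟩
    rw [h3, Submodule.mem_bot] at h4
    exact Subtype.ext h4
  · right
    rw [eq_top_iff]
    intro u _
    have h4 : (u : V) ∈ U.map Y.subtype := by rw [h3]; exact u.2
    obtain ⟨u', hu', h5⟩ := h4
    rwa [Subtype.ext h5] at hu'

end sub

variable {E : Type} [NormedField E] [IsAlgClosed E] {W P : Type} [Group W] [TopologicalSpace W]
  [IsTopologicalGroup W] [T2Space W] [Group P] [TopologicalSpace P] [IsTopologicalGroup P]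
  [CompactSpace P] [TotallyDisconnectedSpace P]
  {V : Type} [AddCommGroup V] [Module E V] [FiniteDimensional E V]

/-- **The decomposition theorem.** -/
theorem decomposition (φ : P →* W) (hφ : Continuous φ) (hfin : φ.range.FiniteIndex)
    (N₁ N₂ : Subgroup P) [N₁.Normal] [N₂.Normal] (hcomm : ∀ x ∈ N₁, ∀ y ∈ N₂, x * y = y * x)
    (ρ : Representation E W V) (hρ : IsContinuousRep ρ) (hirr : ρ.IsIrreducible)
    (hdet : FiniteDeterminant ρ) :
    ∃ (H : Subgroup P) (A₁ A₂ M : Type) (_ : AddCommGroup A₁)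
      (_ : Module E A₁) (_ : AddCommGroup A₂) (_ : Module E A₂) (_ : AddCommGroup M)
      (_ : Module E M) (ρ₁ : Representation E H A₁) (ρ₂ : Representation E H A₂)
      (γ : Representation E H M) (T : (A₁ ⊗[E] (A₂ ⊗[E] M)) →ₗ[E] V),
      IsOpen (H : Set P) ∧ FiniteDimensional E A₁ ∧ FiniteDimensional E A₂ ∧
      FiniteDimensional E M ∧
      IsContinuousRep ρ₁ ∧ IsContinuousRep ρ₂ ∧ IsContinuousRep γ ∧
      Function.Injective T ∧
      (∀ (h : H) a₁ a₂ m, T (ρ₁ h a₁ ⊗ₜ (ρ₂ h a₂ ⊗ₜ γ h m)) =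
        ρ (φ h) (T (a₁ ⊗ₜ (a₂ ⊗ₜ m)))) ∧
      (∀ h, LinearMap.det (ρ₁ h) = 1) ∧ (∀ h, LinearMap.det (ρ₂ h) = 1) ∧
      (∀ h : H, (h : P) ∈ N₂ → ρ₁ h = 1) ∧ (∀ h : H, (h : P) ∈ N₁ → ρ₂ h = 1) ∧
      (∀ h : H, (h : P) ∈ N₁ ∨ (h : P) ∈ N₂ → ∃ s : E, γ h = s • 1) ∧
      StronglyIrreducibleOn N₁ ρ₁ ∧ StronglyIrreducibleOn N₂ ρ₂ ∧
      StronglyIrreducibleOn ⊤ γ ∧
      ∀ geom : Subgroup W, (∀ x y : W, x * y * x⁻¹ * y⁻¹ ∈ geom) → CharactersFinite E geom →
        (∀ h : H, (h : P) ∈ N₁ ∨ (h : P) ∈ N₂ → γ h = 1) ∧ FiniteDeterminant γ := by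
  classical
  have htop := ir_top hirr
  set rP : Representation E P V := ρ.comp φ with hrP
  have hrPc : IsContinuousRep rP := fun l a => (hρ l a).comp hφ
  obtain ⟨P0, Y, -, hP0o, hP0n, hY⟩ := exists_min (r := rP) Set.univ ⊤ htop.1
    ⟨⊤, isOpen_univ, fun _ _ _ _ => trivial⟩
  have hst : ∀ x ∈ P0, ∀ u ∈ Y, rP x u ∈ Y := fun x hx u hu =>
    (hY P0 le_rfl hP0o).2.1 x ⟨trivial, hx⟩ u hu
  set r0 := sub rP P0 Y hst with hr0
  have hr0c : IsContinuousRep r0 := sub_cont hrPc P0 Y hst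
  have hr0s : SIr r0 := sub_sir hP0o hst hY
  have hP0c : CompactSpace P0 := compact_of_open hP0o
  -- the exponent
  obtain ⟨n, hn, hn'⟩ : ∃ n : ℕ, 0 < n ∧ ((∃ k : ℕ, 0 < k ∧ ∀ x, LinearMap.det (r0 x) ^ k = 1) →
      ∀ x, LinearMap.det (r0 x) ^ n = 1) := by
    by_cases h : ∃ k : ℕ, 0 < k ∧ ∀ x, LinearMap.det (r0 x) ^ k = 1
    · obtain ⟨k, hk, hk'⟩ := h
      exact ⟨k, hk, fun _ => hk'⟩
    · exact ⟨1, one_pos, fun h' => absurd h' h⟩
  obtain ⟨H, K, A₁, A₂, M, _, _, _, _, _, _, ρ₁, ρ₂, γ, T, hHo, hKo, hA₁, hA₂, hM, hc₁, hc₂, hcγ,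
    hT, hd₁, hd₂, ht₁, ht₂, hsc, hi₁, hi₂, hiγ, hcond⟩ := pair hr0c hr0s hn
      (N₁.subgroupOf P0) (N₂.subgroupOf P0) (fun x hx y hy => Subtype.ext (hcomm _ hx _ hy))
  -- the embedding
  let i : K →* P := P0.subtype.comp (H.subtype.comp K.subtype)
  have hi : IsOpenEmbedding i :=
    (hP0o.isOpenEmbedding_subtypeVal.comp hHo.isOpenEmbedding_subtypeVal).comp
      hKo.isOpenEmbedding_subtypeVal
  have hiv : ∀ k : K, i k = (((k : H) : P0) : P) := fun k => rfl
  let e : K ≃* i.range := MonoidHom.ofInjective hi.injective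
  have he : ∀ h : i.range, i (e.symm h) = h := by
    intro h
    exact congrArg Subtype.val (e.apply_symm_apply h)
  have hec : Continuous e.symm := by
    rw [hi.toIsInducing.continuous_iff]
    have h1 : (i ∘ e.symm : i.range → P) = Subtype.val := funext he
    rw [h1]
    exact continuous_subtype_val
  have hopen : ∀ L : Subgroup P, IsOpen (L : Set P) →
      IsOpen (((L.comap P0.subtype).comap H.subtype).comap K.subtype : Set K) := by
    intro L hL
    exact hL.preimage hi.continuous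
  refine ⟨i.range, A₁, A₂, M, inferInstance, inferInstance, inferInstance, inferInstance,
    inferInstance, inferInstance, ρ₁.comp e.symm.toMonoidHom, ρ₂.comp e.symm.toMonoidHom,
    γ.comp e.symm.toMonoidHom, Y.subtype ∘ₗ T.toLinearMap, ?_, hA₁, hA₂, hM,
    fun l a => (hc₁ l a).comp hec, fun l a => (hc₂ l a).comp hec, fun l a => (hcγ l a).comp hec,
    Subtype.val_injective.comp T.injective, ?_, fun h => hd₁ _, fun h => hd₂ _, ?_, ?_, ?_,
    ⟨?_, ?_⟩, ⟨?_, ?_⟩, ⟨?_, ?_⟩, ?_⟩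
  · rw [MonoidHom.coe_range]
    exact hi.isOpen_range
  · intro h a₁ a₂ m
    have h1 := congrArg (Subtype.val) (hT (e.symm h) a₁ a₂ m)
    have h2 : ρ (φ (i (e.symm h))) (T (a₁ ⊗ₜ (a₂ ⊗ₜ m)) : V) =
      ρ (φ h) (T (a₁ ⊗ₜ (a₂ ⊗ₜ m)) : V) := by rw [he]
    exact h1.trans h2
  · intro h hh
    exact ht₁ (e.symm h) (by
      have h1 : i (e.symm h) ∈ N₂ := by rwa [he]
      exact h1)
  · intro h hh
    exact ht₂ (e.symm h) (by
      have h1 : i (e.symm h) ∈ N₁ := by rwa [he]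
      exact h1)
  · intro h hh
    exact hsc (e.symm h) (by
      have h1 : i (e.symm h) ∈ N₁ ∨ i (e.symm h) ∈ N₂ := by rwa [he]
      exact h1)
  · exact (Submodule.nontrivial_iff E).1 ⟨⊤, ⊥, (hi₁ ⊤ isOpen_univ).1⟩
  · intro L hL U hU
    refine (hi₁ (L.subgroupOf P0) (hL.preimage continuous_subtype_val)).2.2 U le_top ?_
    rintro k ⟨hk1, hk2⟩ u hu
    have h1 := hU (e k) hk1 hk2 u hu
    change ρ₁ (e.symm (e k)) u ∈ U at h1
    rwa [e.symm_apply_apply] at h1
  · exact (Submodule.nontrivial_iff E).1 ⟨⊤, ⊥, (hi₂ ⊤ isOpen_univ).1⟩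
  · intro L hL U hU
    refine (hi₂ (L.subgroupOf P0) (hL.preimage continuous_subtype_val)).2.2 U le_top ?_
    rintro k ⟨hk1, hk2⟩ u hu
    have h1 := hU (e k) hk1 hk2 u hu
    change ρ₂ (e.symm (e k)) u ∈ U at h1
    rwa [e.symm_apply_apply] at h1
  · exact (Submodule.nontrivial_iff E).1 ⟨⊤, ⊥, (hiγ ⊤ isOpen_univ).1⟩
  · intro L hL U hU
    refine (hiγ _ (hopen L hL)).2.2 U le_top ?_
    intro k hk u hu
    have h1 := hU (e k) trivial hk u hu
    change γ (e.symm (e k)) u ∈ U at h1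
    rwa [e.symm_apply_apply] at h1
  · intro geom hcom hchar
    -- the determinant on `Y`
    have hP0f : P0.FiniteIndex := by
      have : Finite (P ⧸ P0) := P0.quotient_finite_of_isOpen hP0o
      exact Subgroup.finiteIndex_of_finite_quotient
    have hWf : (P0.map φ).FiniteIndex := by
      refine ⟨?_⟩
      rw [Subgroup.index_map]
      refine mul_ne_zero ?_ hfin.index_ne_zero
      exact (Subgroup.finiteIndex_of_le (le_sup_left : P0 ≤ P0 ⊔ φ.ker)).index_ne_zero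
    have hWc : IsClosed ((P0.map φ : Subgroup W) : Set W) := by
      rw [Subgroup.coe_map]
      exact ((P0.isClosed_of_isOpen hP0o).isCompact.image hφ).isClosed
    have hWo : IsOpen ((P0.map φ : Subgroup W) : Set W) :=
      Subgroup.isOpen_of_isClosed_of_finiteIndex _ hWc
    have hYW : Ir ρ (P0.map φ : Subgroup W) Y := by
      refine ⟨(hY P0 le_rfl hP0o).1, ?_, fun Z hZ hZS =>
        (hY P0 le_rfl hP0o).2.2 Z hZ fun p hp u hu => ?_⟩
      · rintro _ ⟨p, hp, rfl⟩ u hu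
        exact hst p hp u hu
      · exact hZS (φ p) ⟨p, hp.2, rfl⟩ u hu
    obtain ⟨k, hk, hk'⟩ := det_fin hcom hchar hρ htop hdet hWo hWf hYW
    obtain ⟨h1, m, hm, h2⟩ := hcond (hn' ⟨k, hk, fun x => hk' (φ x) ⟨x, x.2, rfl⟩⟩)
    refine ⟨fun h hh => h1 (e.symm h) ?_, m, hm, fun h => h2 (e.symm h)⟩
    have h3 : i (e.symm h) ∈ N₁ ∨ i (e.symm h) ∈ N₂ := by rwa [he]
    exact h3

end

end Pool.Agent.K1H12.RP
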