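import Pool.Agent.K1H12.RP.Core

/-!
# The decomposition with respect to two commuting normal subgroups
-/

set_option autoImplicit false
set_option linter.unusedSectionVars false

open Filter Topology Module TensorProduct

namespace Pool.Agent.K1H12.RP

open Pool.Agent.K1H13.GO

noncomputable section

variable {E : Type} [NormedField E] [IsAlgClosed E] {Y : Type} [AddCommGroup Y] [Module E Y]
  [FiniteDimensional E Y] {P : Type} [Group P] {r : Representation E P Y}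
  [TopologicalSpace P] [IsTopologicalGroup P] [CompactSpace P] [TotallyDisconnectedSpace P]

theorem compact_of_open {H : Subgroup P} (hH : IsOpen (H : Set P)) : CompactSpace H :=
  isCompact_iff_compactSpace.1 (H.isClosed_of_isOpen hH).isCompact

/-- **The decomposition with respect to two commuting normal subgroups.** -/
theorem pair (hr : IsContinuousRep r) (hS : SIr r) {n : ℕ} (hn : 0 < n) (N₁ N₂ : Subgroup P)
    [N₁.Normal] [N₂.Normal] (hcomm : ∀ x ∈ N₁, ∀ y ∈ N₂, x * y = y * x) :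
    ∃ (H : Subgroup P) (K : Subgroup H) (A₁ A₂ M : Type) (_ : AddCommGroup A₁)
      (_ : Module E A₁) (_ : AddCommGroup A₂) (_ : Module E A₂) (_ : AddCommGroup M)
      (_ : Module E M) (ρ₁ : Representation E K A₁) (ρ₂ : Representation E K A₂)
      (γ : Representation E K M) (T : (A₁ ⊗[E] (A₂ ⊗[E] M)) ≃ₗ[E] Y),
      IsOpen (H : Set P) ∧ IsOpen (K : Set H) ∧ FiniteDimensional E A₁ ∧
      FiniteDimensional E A₂ ∧ FiniteDimensional E M ∧
      IsContinuousRep ρ₁ ∧ IsContinuousRep ρ₂ ∧ IsContinuousRep γ ∧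
      (∀ (k : K) a₁ a₂ m, T (ρ₁ k a₁ ⊗ₜ (ρ₂ k a₂ ⊗ₜ γ k m)) =
        r (k : H) (T (a₁ ⊗ₜ (a₂ ⊗ₜ m)))) ∧
      (∀ k, LinearMap.det (ρ₁ k) = 1) ∧ (∀ k, LinearMap.det (ρ₂ k) = 1) ∧
      (∀ k : K, ((k : H) : P) ∈ N₂ → ρ₁ k = 1) ∧ (∀ k : K, ((k : H) : P) ∈ N₁ → ρ₂ k = 1) ∧
      (∀ k : K, ((k : H) : P) ∈ N₁ ∨ ((k : H) : P) ∈ N₂ → ∃ s : E, γ k = s • 1) ∧
      (∀ L : Subgroup P, IsOpen (L : Set P) →
        Ir ρ₁ {k | ((k : H) : P) ∈ N₁ ∧ ((k : H) : P) ∈ L} ⊤) ∧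
      (∀ L : Subgroup P, IsOpen (L : Set P) →
        Ir ρ₂ {k | ((k : H) : P) ∈ N₂ ∧ ((k : H) : P) ∈ L} ⊤) ∧
      SIr γ ∧
      ((∀ x, LinearMap.det (r x) ^ n = 1) →
        (∀ k : K, ((k : H) : P) ∈ N₁ ∨ ((k : H) : P) ∈ N₂ → γ k = 1) ∧
        FiniteDeterminant γ) := by
  classical
  obtain ⟨H, A₁, M₁, _, _, _, _, ρ₁, γ₁, T₁, hHo, hA₁, hM₁, hcρ₁, hcγ₁, hT₁, hdρ₁, hcen₁, hsc₁,
    htr₁, hir₁, hSγ₁, hdet₁⟩ := core hr hS N₁ hn
  have hA₁nt : Nontrivial A₁ := by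
    have h1 := (hir₁ ⊤ isOpen_univ).1
    exact (Submodule.nontrivial_iff E).1 ⟨⊤, ⊥, h1⟩
  have hd₁ : 0 < finrank E A₁ := finrank_pos
  have := compact_of_open hHo
  have hN₂' : (N₂.subgroupOf H).Normal := inferInstance
  obtain ⟨K, A₂, M, _, _, _, _, ρ₂, γ, T₂, hKo, hA₂, hM, hcρ₂, hcγ, hT₂, hdρ₂, hcen₂, hsc₂,
    htr₂, hir₂, hSγ, hdet₂⟩ := core hcγ₁ hSγ₁ (N₂.subgroupOf H) (Nat.mul_pos hd₁ hn)
  have hA₂nt : Nontrivial A₂ := by
    have h1 := (hir₂ ⊤ isOpen_univ).1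
    exact (Submodule.nontrivial_iff E).1 ⟨⊤, ⊥, h1⟩
  have hd₂ : 0 < finrank E A₂ := finrank_pos
  have hρ₂ : ∀ k : K, ((k : H) : P) ∈ N₁ → ρ₂ k = 1 := by
    intro k hk
    refine hcen₂ k fun x hx => ?_
    exact Subtype.ext (hcomm _ hk _ hx)
  have hγN₁ : ∀ (k : K), ((k : H) : P) ∈ N₁ → ∀ s : E, γ₁ (k : H) = s • 1 → γ k = s • 1 := by
    intro k hk s hs
    obtain ⟨a, ha⟩ := exists_ne (0 : A₂)
    refine LinearMap.ext fun m => ?_
    have h1 := hT₂ k a m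
    rw [hρ₂ k hk, hs] at h1
    have h2 : T₂ (a ⊗ₜ γ k m) = T₂ (a ⊗ₜ (s • m)) := by
      rw [TensorProduct.tmul_smul, map_smul]
      exact h1
    have h3 := T₂.injective h2
    obtain ⟨l, hl⟩ : ∃ l : Dual E A₂, l a ≠ 0 := by
      by_contra hcon
      push Not at hcon
      exact ha ((Module.forall_dual_apply_eq_zero_iff E a).1 hcon)
    have h4 := congrArg (TensorProduct.lift ((LinearMap.lsmul E M).comp l)) h3
    rw [TensorProduct.lift.tmul, TensorProduct.lift.tmul] at h4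
    exact smul_right_injective M hl h4
  refine ⟨H, K, A₁, A₂, M, inferInstance, inferInstance, inferInstance, inferInstance,
    inferInstance, inferInstance, ρ₁.comp K.subtype, ρ₂, γ,
    (LinearEquiv.lTensor A₁ T₂).trans T₁, hHo, hKo, hA₁, hA₂, hM,
    fun l a => (hcρ₁ l a).comp continuous_subtype_val, hcρ₂, hcγ, ?_, fun k => hdρ₁ k, hdρ₂,
    ?_, hρ₂, ?_, ?_, ?_, hSγ, ?_⟩
  · intro k a₁ a₂ m
    change T₁ (ρ₁ (k : H) a₁ ⊗ₜ T₂ (ρ₂ k a₂ ⊗ₜ γ k m)) = r (k : H) (T₁ (a₁ ⊗ₜ T₂ (a₂ ⊗ₜ m)))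
    rw [hT₂, hT₁]
  · intro k hk
    exact hcen₁ k fun x hx => (hcomm x hx _ hk).symm
  · rintro k (hk | hk)
    · obtain ⟨s, hs⟩ := hsc₁ k hk
      exact ⟨s, hγN₁ k hk s hs⟩
    · exact hsc₂ k hk
  · intro L hL
    refine ⟨top_ne_bot, fun _ _ _ _ => trivial, fun W _ hW => ?_⟩
    have hKo' : IsOpen ((K.map H.subtype : Subgroup P) : Set P) := by
      rw [Subgroup.coe_map]
      exact hHo.isOpenMap_subtype_val _ hKo
    have h1 := hir₁ (L ⊓ K.map H.subtype) (by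
      rw [Subgroup.coe_inf]
      exact hL.inter hKo')
    refine h1.2.2 W le_top ?_
    rintro h ⟨hh1, hh2, ⟨k, hk, hk'⟩⟩ w hw
    have h2 : k = h := Subtype.ext hk'
    subst h2
    exact hW ⟨k, hk⟩ ⟨hh1, hh2⟩ w hw
  · intro L hL
    exact hir₂ (L.subgroupOf H) (hL.preimage continuous_subtype_val)
  · intro hdet
    have hγ₁ : ∀ h : H, LinearMap.det (γ₁ h) ^ (finrank E A₁ * n) = 1 := by
      intro h
      rw [pow_mul, ← hdet₁, hdet]
    refine ⟨?_, ⟨finrank E A₂ * (finrank E A₁ * n),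
      Nat.mul_pos hd₂ (Nat.mul_pos hd₁ hn), fun k => ?_⟩⟩
    · rintro k (hk | hk)
      · have h1 := hγN₁ k hk 1 (by
          rw [one_smul]
          exact htr₁ (fun x _ => hdet x) k hk)
        rw [h1, one_smul]
      · exact htr₂ (fun x _ => hγ₁ x) k hk
    · rw [pow_mul, ← hdet₂, hγ₁]

end

end Pool.Agent.K1H12.RP
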