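import Mathlib

/-!
# Roots near one in algebraically closed normed fields
-/

set_option autoImplicit false

open Filter Topology Polynomial

namespace Pool.Agent.K1H12.RP

variable {E : Type} [NormedField E]

theorem root_near [IsAlgClosed E] {d : ℕ} (hd : 0 < d) {ε : ℝ} (hε : 0 < ε) {x : E}
    (hx : ‖x - 1‖ < ε ^ d) : ∃ y : E, y ^ d = x ∧ ‖y - 1‖ < ε := by
  classical
  set p : E[X] := X ^ d - C x with hp
  have hm : p.Monic := monic_X_pow_sub_C x hd.ne'
  have hs : p.Splits := IsAlgClosed.splits p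
  have hcard : Multiset.card p.roots = d := by
    rw [← hs.natDegree_eq_card_roots, hp, natDegree_X_pow_sub_C]
  have h1 := hs.eval_eq_prod_roots_of_monic hm 1
  have h2 : p.eval 1 = 1 - x := by simp [hp]
  rw [h2] at h1
  by_contra hcon
  push Not at hcon
  have h3 : ∀ y ∈ p.roots, ε ≤ ‖1 - y‖ := by
    intro y hy
    have h4 : y ^ d = x := by
      have h5 := isRoot_of_mem_roots hy
      rw [IsRoot, hp, eval_sub, eval_pow, eval_X, eval_C, sub_eq_zero] at h5
      exact h5
    have h6 := hcon y h4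
    rwa [norm_sub_rev] at h6
  have h4 : ∀ s : Multiset E, (∀ y ∈ s, ε ≤ ‖1 - y‖) →
      ε ^ Multiset.card s ≤ ‖(s.map fun y => 1 - y).prod‖ := by
    intro s
    induction s using Multiset.induction_on with
    | empty => intro _; simp
    | cons y s ih =>
      intro h
      rw [Multiset.card_cons, Multiset.map_cons, Multiset.prod_cons, norm_mul, pow_succ, mul_comm]
      exact mul_le_mul (h y (Multiset.mem_cons_self _ _))
        (ih fun z hz => h z (Multiset.mem_cons_of_mem hz)) (by positivity) (norm_nonneg _)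
  have h5 := h4 _ h3
  rw [hcard, ← h1, norm_sub_rev] at h5
  exact absurd hx (not_lt.2 h5)

theorem root_sep (E : Type) [NormedField E] {d : ℕ} (hd : 0 < d) :
    ∃ ε : ℝ, 0 < ε ∧ ∀ z : E, z ^ d = 1 → ‖z - 1‖ < ε → z = 1 := by
  classical
  have hfin : ({z : E | z ^ d = 1} \ {1}).Finite := by
    refine Set.Finite.subset ((nthRootsFinset d (1 : E)).finite_toSet) ?_
    rintro z ⟨hz, -⟩
    exact (mem_nthRootsFinset hd 1).2 hz
  have hopen : IsOpen (({z : E | z ^ d = 1} \ {1})ᶜ) := hfin.isClosed.isOpen_compl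
  have hmem : (1 : E) ∈ (({z : E | z ^ d = 1} \ {1})ᶜ) := fun h => h.2 rfl
  obtain ⟨ε, hε, hb⟩ := Metric.isOpen_iff.1 hopen 1 hmem
  refine ⟨ε, hε, fun z hz hz1 => ?_⟩
  by_contra hne
  exact hb (by rw [Metric.mem_ball, dist_eq_norm]; exact hz1) ⟨hz, hne⟩

/-- A function which tends to one has a `d`-th root which tends to one. -/
theorem exists_root [IsAlgClosed E] {X : Type} {l : Filter X} {d : ℕ} (hd : 0 < d) {F : X → E}
    (hF : Tendsto F l (𝓝 1)) : ∃ c : X → E, (∀ x, c x ^ d = F x) ∧ Tendsto c l (𝓝 1) := by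
  classical
  have hex : ∀ z : E, ∃ y : E, y ^ d = z ∧ ∀ y', y' ^ d = z → ‖y - 1‖ ≤ ‖y' - 1‖ := by
    intro z
    have hfin : {y : E | y ^ d = z}.Finite := by
      refine Set.Finite.subset ((nthRootsFinset d z).finite_toSet) ?_
      intro y hy
      exact (mem_nthRootsFinset hd z).2 hy
    obtain ⟨y0, hy0⟩ := IsAlgClosed.exists_pow_nat_eq z hd
    obtain ⟨y, hy, hy'⟩ := Set.exists_min_image _ (fun y : E => ‖y - 1‖) hfin ⟨y0, hy0⟩
    exact ⟨y, hy, fun y' h => hy' y' h⟩
  choose r hr hr' using hex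
  refine ⟨fun x => r (F x), fun x => hr _, ?_⟩
  rw [Metric.tendsto_nhds]
  intro ε hε
  have h1 := (Metric.tendsto_nhds.1 hF) (ε ^ d) (by positivity)
  filter_upwards [h1] with x hx
  rw [dist_eq_norm] at hx ⊢
  obtain ⟨y, hy, hy1⟩ := root_near hd hε hx
  exact lt_of_le_of_lt (hr' _ y hy) hy1

end Pool.Agent.K1H12.RP
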