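import Pool.Agent.K1H13.GO.Final
import Pool.Agent.K1H12.RP.Pw

/-!
# Small open subgroups of profinite groups and functions tending to the identity
-/

set_option autoImplicit false

open Filter Topology Module

namespace Pool.Agent.K1H12.RP

open Pool.Agent.K1H13.GO

section groups

variable {P : Type} [Group P] [TopologicalSpace P] [IsTopologicalGroup P] [CompactSpace P]
  [TotallyDisconnectedSpace P]

theorem small {p : P → Prop} (h : ∀ᶠ x in 𝓝 (1 : P), p x) :
    ∃ H : Subgroup P, IsOpen (H : Set P) ∧ H.Normal ∧ ∀ x ∈ H, p x := by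
  obtain ⟨U, hU, hUo, h1⟩ := eventually_nhds_iff.1 h
  obtain ⟨H, hH⟩ := ProfiniteGrp.exist_openNormalSubgroup_sub_open_nhds_of_one hUo h1
  exact ⟨H.toSubgroup, H.isOpen', H.isNormal', fun x hx => hU x (hH hx)⟩

theorem small₂ {p : P → P → Prop} (h : ∀ᶠ q in 𝓝 (1 : P) ×ˢ 𝓝 (1 : P), p q.1 q.2) :
    ∃ H : Subgroup P, IsOpen (H : Set P) ∧ H.Normal ∧ ∀ x ∈ H, ∀ y ∈ H, p x y := by
  obtain ⟨U, hU, W, hW, h1⟩ := eventually_prod_iff.1 h
  obtain ⟨H, hH, hH', h2⟩ := small (hU.and hW)
  exact ⟨H, hH, hH', fun x hx y hy => h1 (h2 x hx).1 (h2 y hy).2⟩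

theorem mul_tendsto : Tendsto (fun q : P × P => q.1 * q.2) (𝓝 (1 : P) ×ˢ 𝓝 (1 : P)) (𝓝 1) := by
  have h1 := (continuous_mul (M := P)).tendsto (1, 1)
  rw [mul_one, nhds_prod_eq] at h1
  exact h1

end groups

section coefficients

variable {E : Type} [NormedField E] {A : Type} [AddCommGroup A] [Module E A]
  [FiniteDimensional E A] {X : Type} {l : Filter X}

/-- All matrix coefficients tend to the ones of the identity. -/
def TId (l : Filter X) (F : X → (A →ₗ[E] A)) : Prop :=
  ∀ (L : Dual E A) (a : A), Tendsto (fun x => L (F x a)) l (𝓝 (L a))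

theorem TId.det {F : X → (A →ₗ[E] A)} (h : TId l F) :
    Tendsto (fun x => LinearMap.det (F x)) l (𝓝 1) := by
  classical
  let b := Module.finBasis E A
  have h2 : (fun x => LinearMap.det (F x)) =
      fun x => (Matrix.of fun i j => b.coord i (F x (b j))).det := by
    funext x
    rw [← LinearMap.det_toMatrix b]
    congr 1
    ext i j
    rw [LinearMap.toMatrix_apply, Matrix.of_apply]
    rfl
  rw [h2]
  have h3 : Tendsto (fun x => (Matrix.of fun i j => b.coord i (F x (b j)))) l
      (𝓝 (Matrix.of fun i j => b.coord i (b j))) := by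
    refine tendsto_pi_nhds.2 fun i => tendsto_pi_nhds.2 fun j => ?_
    simp only [Matrix.of_apply]
    exact h (b.coord i) (b j)
  have h4 : (Matrix.of fun i j => b.coord i (b j)).det = 1 := by
    have h5 : (Matrix.of fun i j => b.coord i (b j)) = (1 : Matrix _ _ E) := by
      ext i j
      rw [Matrix.of_apply, Basis.coord_apply, Basis.repr_self, Matrix.one_apply,
        Finsupp.single_apply]
      simp [eq_comm]
    rw [h5, Matrix.det_one]
  rw [← h4]
  exact ((continuous_id.matrix_det).tendsto _).comp h3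

theorem TId.mul {F G : X → (A →ₗ[E] A)} (hF : TId l F) (hG : TId l G) :
    TId l fun x => F x * G x := by
  classical
  intro L a
  let b := Module.finBasis E A
  have h1 : (fun x => L ((F x * G x) a)) =
      fun x => ∑ k, b.coord k (G x a) * L (F x (b k)) := by
    funext x
    rw [Module.End.mul_apply]
    conv_lhs => rw [← b.sum_repr (G x a)]
    rw [map_sum, map_sum]
    refine Finset.sum_congr rfl fun k _ => ?_
    rw [map_smul, map_smul, smul_eq_mul, Basis.coord_apply]
  have h2 : L a = ∑ k, b.coord k a * L (b k) := by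
    conv_lhs => rw [← b.sum_repr a]
    rw [map_sum]
    refine Finset.sum_congr rfl fun k _ => ?_
    rw [map_smul, smul_eq_mul, Basis.coord_apply]
  rw [h1, h2]
  exact tendsto_finsetSum _ fun k _ => (hG _ _).mul (hF _ _)

omit [FiniteDimensional E A] in
theorem TId.smul {F : X → (A →ₗ[E] A)} (hF : TId l F) {c : X → E} (hc : Tendsto c l (𝓝 1)) :
    TId l fun x => (c x)⁻¹ • F x := by
  intro L a
  have h1 : (fun x => L (((c x)⁻¹ • F x) a)) = fun x => (c x)⁻¹ * L (F x a) := by
    funext x
    rw [LinearMap.smul_apply, map_smul, smul_eq_mul]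
  rw [h1]
  have h2 := (hc.inv₀ one_ne_zero).mul (hF L a)
  rwa [inv_one, one_mul] at h2

omit [FiniteDimensional E A] in
theorem TId.comp {F : X → (A →ₗ[E] A)} (hF : TId l F) {Z : Type} {l' : Filter Z} {g : Z → X}
    (hg : Tendsto g l' l) : TId l' fun z => F (g z) := fun L a => (hF L a).comp hg

end coefficients

end Pool.Agent.K1H12.RP
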